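import Pool.Agent.W2helper58.SS.Stm
import Pool.Agent.W2helper86.GF.Count

/-!
# Project SS, piece A: sharper count of circuits
-/

set_option autoImplicit false

namespace Pool.Agent.W2helper92.SS

open Pool.Agent.NPC Pool.Agent.H620R2.Gauge Pool.Agent.W2helper58.GF Pool.Agent.W2helper58.SS
open Pool.Agent.W2helper86.GF

/-- a symbol of the description of a circuit: the beginning of a gate (AND, OR or oracle gate), or
a wire -/
abbrev Tok (m : ℕ) : Type := Fin 3 ⊕ WireN m

/-- the description of a circuit -/
abbrev Code (m : ℕ) : Type := (Fin (3 * m) → Option (Tok m)) × WireN m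

/-- reading a symbol, from the right to the left -/
def step {m : ℕ} : Tok m → List Wire × List Gate → List Wire × List Gate
  | Sum.inr w, s => (decW w :: s.1, s.2)
  | Sum.inl 0, s => ([], .and (s.1.getD 0 ⟨.const, false⟩) (s.1.getD 1 ⟨.const, false⟩) :: s.2)
  | Sum.inl 1, s => ([], .or (s.1.getD 0 ⟨.const, false⟩) (s.1.getD 1 ⟨.const, false⟩) :: s.2)
  | Sum.inl 2, s => ([], .ask s.1 :: s.2)

/-- the circuit -/
def dec {m : ℕ} (p : Code m) : Circuit :=
  ⟨(((List.ofFn p.1).filterMap id).foldr step ([], [])).2, decW p.2⟩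

/-- the description of a gate -/
def encG (m : ℕ) : Gate → List (Tok m)
  | .and u v => [Sum.inl 0, Sum.inr (normW m u), Sum.inr (normW m v)]
  | .or u v => [Sum.inl 1, Sum.inr (normW m u), Sum.inr (normW m v)]
  | .ask l => Sum.inl 2 :: l.map fun u => Sum.inr (normW m u)

/-- normal form of a gate -/
def nG (m : ℕ) : Gate → Gate
  | .and u v => .and (decW (normW m u)) (decW (normW m v))
  | .or u v => .or (decW (normW m u)) (decW (normW m v))
  | .ask l => .ask (l.map fun u => decW (normW m u))

theorem length_encG (m : ℕ) (a : Gate) : (encG m a).length ≤ 3 * a.size := by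
  cases a with
  | and u v => simp [encG, Gate.size]
  | or u v => simp [encG, Gate.size]
  | ask l =>
    rw [show (encG m (.ask l)).length = l.length + 1 by simp [encG]]
    show _ ≤ 3 * (l.length + 1)
    omega

theorem length_enc (m : ℕ) : ∀ gs : List Gate,
    (gs.flatMap (encG m)).length ≤ 3 * (gs.map Gate.size).sum := by
  intro gs
  induction gs with
  | nil => simp
  | cons a gs ih =>
    have := length_encG m a
    rw [List.flatMap_cons, List.length_append, List.map_cons, List.sum_cons]
    omega

theorem foldr_wires (m : ℕ) (gs : List Gate) : ∀ l : List Wire,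
    (l.map fun u => (Sum.inr (normW m u) : Tok m)).foldr step ([], gs) =
      (l.map fun u => decW (normW m u), gs) := by
  intro l
  induction l with
  | nil => rfl
  | cons u l ih =>
    rw [List.map_cons, List.foldr_cons, ih]
    rfl

theorem foldr_gate (m : ℕ) (a : Gate) (gs : List Gate) :
    (encG m a).foldr step ([], gs) = ([], nG m a :: gs) := by
  cases a with
  | and u v => rfl
  | or u v => rfl
  | ask l =>
    unfold encG
    rw [List.foldr_cons, foldr_wires]
    rfl

theorem foldr_enc (m : ℕ) : ∀ gs : List Gate,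
    (gs.flatMap (encG m)).foldr step ([], []) = ([], gs.map (nG m)) := by
  intro gs
  induction gs with
  | nil => rfl
  | cons a gs ih =>
    rw [List.flatMap_cons, List.foldr_append, ih, foldr_gate]
    rfl

/-- the description of a circuit -/
def enc (m : ℕ) (C : Circuit) : Code m :=
  (fun i => (C.gates.flatMap (encG m))[(i : ℕ)]?, normW m C.out)

theorem dec_enc (m : ℕ) (C : Circuit) (hC : C.size ≤ m) :
    dec (enc m C) = ⟨C.gates.map (nG m), decW (normW m C.out)⟩ := by
  have h1 := length_enc m C.gates
  have h2 : (C.gates.flatMap (encG m)).length ≤ 3 * m :=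
    h1.trans (Nat.mul_le_mul_left _ hC)
  unfold dec enc
  simp only
  rw [filterMap_ofFn _ _ h2, foldr_enc]

theorem nG_val (m : ℕ) (G : Gate) (A : Oracle) (x g : List Bool)
    (hx : x.length ≤ m) (hg : g.length ≤ m) : (nG m G).val A x g = G.val A x g := by
  cases G with
  | and u v =>
    show ((decW (normW m u)).val x g && (decW (normW m v)).val x g) = _
    rw [normW_val m u x g hx hg, normW_val m v x g hx hg]
    rfl
  | or u v =>
    show ((decW (normW m u)).val x g || (decW (normW m v)).val x g) = _
    rw [normW_val m u x g hx hg, normW_val m v x g hx hg]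
    rfl
  | ask l =>
    show A ((l.map fun u => decW (normW m u)).map (Wire.val x g)) = A (l.map (Wire.val x g))
    rw [List.map_map]
    congr 1
    apply List.map_congr_left
    intro u _
    exact normW_val m u x g hx hg

theorem foldl_nG (m : ℕ) (A : Oracle) (x : List Bool) (hx : x.length ≤ m) :
    ∀ (gs : List Gate) (g : List Bool), g.length + gs.length ≤ m →
      (gs.map (nG m)).foldl (fun g a => g ++ [a.val A x g]) g
        = gs.foldl (fun g a => g ++ [a.val A x g]) g := by
  intro gs
  induction gs with
  | nil => intro g _; rfl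
  | cons a gs ih =>
    intro g h2
    rw [List.length_cons] at h2
    simp only [List.map_cons, List.foldl_cons]
    rw [nG_val m a A x g hx (by omega)]
    exact ih _ (by simp; omega)

theorem enc_eval (m : ℕ) (C : Circuit) (hC : C.size ≤ m) (A : Oracle) (x : List Bool)
    (hx : x.length = m) : (dec (enc m C)).eval A x = C.eval A x := by
  obtain ⟨h1, h2⟩ := size_facts C.gates
  have hlen : C.gates.length ≤ m := h1.trans hC
  rw [dec_enc m C hC]
  have hval : (⟨C.gates.map (nG m), decW (normW m C.out)⟩ : Circuit).values A x =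
      C.values A x := by
    unfold Circuit.values
    exact foldl_nG m A x hx.le C.gates [] (by simpa using hlen)
  unfold Circuit.eval
  rw [hval]
  show (decW (normW m C.out)).val x _ = _
  apply normW_val m C.out x _ hx.le
  unfold Circuit.values
  rw [length_values]
  simpa using hlen

theorem enc_local (m : ℕ) (C : Circuit) (hC : C.size ≤ m) (A A' : Oracle)
    (h : ∀ y : List Bool, y.length < m → A y = A' y) (x : List Bool) :
    (dec (enc m C)).eval A x = (dec (enc m C)).eval A' x := by
  obtain ⟨h1, h2⟩ := size_facts C.gates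
  rw [dec_enc m C hC]
  unfold Circuit.eval Circuit.values
  rw [foldl_local A A' x (C.gates.map (nG m)) [] ?_]
  intro a ha g
  obtain ⟨b, hb, rfl⟩ := List.mem_map.1 ha
  have h3 := (h2 b hb).trans hC
  cases b with
  | and u v => rfl
  | or u v => rfl
  | ask l =>
    show A _ = A' _
    apply h
    rw [List.length_map, List.length_map]
    exact h3

theorem card_code (m : ℕ) :
    Fintype.card (Code m) ≤ 2 ^ (12 * (m + 1) * Nat.size (m + 1)) := by
  have hw : Fintype.card (WireN m) = 4 * m + 2 := by
    simp only [Fintype.card_prod, Fintype.card_option, Fintype.card_sum, Fintype.card_fin,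
      Fintype.card_bool]
    ring
  have hc : Fintype.card (Code m) = (4 * m + 6) ^ (3 * m) * (4 * m + 2) := by
    rw [Fintype.card_prod, Fintype.card_fun, Fintype.card_option, Fintype.card_sum, hw,
      Fintype.card_fin, Fintype.card_fin]
    congr 2
    ring
  have h1 : 4 * m + 6 ≤ 2 ^ (4 * Nat.size (m + 1)) := by
    have h2 := Nat.lt_size_self (m + 1)
    have h3 : 1 ≤ Nat.size (m + 1) := Nat.size_pos.2 (Nat.succ_pos m)
    calc 4 * m + 6 ≤ 2 ^ 3 * 2 ^ Nat.size (m + 1) := by omega
      _ = 2 ^ (3 + Nat.size (m + 1)) := by rw [pow_add]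
      _ ≤ 2 ^ (4 * Nat.size (m + 1)) := Nat.pow_le_pow_right (by norm_num) (by omega)
  rw [hc]
  calc (4 * m + 6) ^ (3 * m) * (4 * m + 2)
      ≤ (4 * m + 6) ^ (3 * m) * (4 * m + 6) := Nat.mul_le_mul_left _ (by omega)
    _ = (4 * m + 6) ^ (3 * m + 1) := by rw [pow_succ]
    _ ≤ (2 ^ (4 * Nat.size (m + 1))) ^ (3 * m + 1) := Nat.pow_le_pow_left h1 _
    _ = 2 ^ (4 * Nat.size (m + 1) * (3 * m + 1)) := by rw [← pow_mul]
    _ ≤ 2 ^ (12 * (m + 1) * Nat.size (m + 1)) := by
        apply Nat.pow_le_pow_right (by norm_num)
        nlinarith [Nat.zero_le (Nat.size (m + 1))]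

/-- PIECE A -/
theorem p_count2 : P_count2 := by
  classical
  refine ⟨12, fun m => ⟨((Finset.univ : Finset (Code m)).image dec).filter (fun C =>
    ∀ A A' : Oracle, (∀ y : List Bool, y.length < m → A y = A' y) →
      ∀ x, C.eval A x = C.eval A' x), ?_, ?_, ?_⟩⟩
  · refine (Finset.card_filter_le _ _).trans (Finset.card_image_le.trans ?_)
    rw [Finset.card_univ]
    exact card_code m
  · intro C hC
    exact (Finset.mem_filter.1 hC).2
  · intro C hC
    exact ⟨dec (enc m C), Finset.mem_filter.2 ⟨Finset.mem_image.2 ⟨_, Finset.mem_univ _, rfl⟩,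
      enc_local m C hC⟩, fun A x hx => enc_eval m C hC A x hx⟩

end Pool.Agent.W2helper92.SS
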